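import Pool.Agent.H108.St.Main
import Pool.Graph.R_seed8.R60.Steiner.Basic

/-!
# Steiner systems `S(n, q, r)` of bounded strength: the number of points is not polynomial in `q - r`

For every exponent `C` there are `r₀` and `k₀` such that every triple `(n, q, r)` with `r ≥ r₀`,
`q - r ≥ k₀`, `n > q` which satisfies the divisibility condition (D), in particular every one for
which there is a Steiner system `S(n, q, r)`, has `n > r + (q - r) ^ C`. There are no exceptions
and no condition on the size of `r` in terms of `q`. In particular (apply it to `C + 1`), for every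
`r ≥ r₀` and ALL large `q` there is no Steiner system `S(n, q, r)` with `q < n ≤ q ^ C`.

The library results `SmallStrength` (for all but at most `ε X` of the numbers `q - r ≤ X`) and
`SuperpolynomialOrder` (`n > min(r, q - r) ^ C`) are contained in this.

Proof. Put `K = q - r + 1`, `N = n - r + 1`. (D) says that `K (K+1) ⋯ (K+j-1)` divides
`N (N+1) ⋯ (N+j-1)` for all `j ≤ r`. Hence `K + l` divides the product of the numbers
`d(l, i) = gcd (K + l, N + i)`, `0 ≤ i ≤ l`, for all `l < r`. Let `w(l, i) = log d(l, i) / log K`;
then the sum of the `w(l, i) ^ 2`, `i ≤ l < R`, is at least `1 + 1/2 + ⋯ + 1/R ≥ 8 C` by the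
inequality of Cauchy and Schwarz. There is a nonzero `F ∈ ℤ[x, y]` of degree at most `C δ` in `x`
and `δ` in `y` which vanishes at all the points `(-l, -i)` at least to the order
`t(l, i) = ⌊T w(l, i)⌋`, where `δ` is about the square root of `∑ t (t + 1) / (2 C)`. The almost
coprime powers `d(l, i) ^ t(l, i)` divide `F(K, N)`, and their product is larger than `|F(K, N)|` if
`N ≤ K ^ C` and `K` is large. So `F(K, N) = 0` for one of finitely many polynomials `F`. But no
nonzero `F` vanishes at points `(K, N)` with `K` large, `N > K`, which satisfy sufficiently many of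
the divisibility conditions: if `F(-l, -i) ≠ 0` for some `l` and all `i ≤ l`, then `K + l` divides
the product of the `F(-l, -i)`, `i ≤ l`. Otherwise `F(-l, y)` has an integral zero for all `l`, so
by Hilbert's irreducibility theorem `F` has a factor of degree one in `y`, and the corresponding
rational function has integral values between `0` and `l` at all `l`, and so is linear; this gives
`N = u K + v` with `u ≤ 1`, but `K` divides `N`.
-/

set_option autoImplicit false

namespace Pool.Agent.H108.Old.NoPolynomialOrder

/-- `B` is a Steiner system `S(n, q, r)` on the points `Fin n`: its members (blocks) have `q`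
elements, and each set of `r` points lies in exactly one block. -/
def IsSteiner (n q r : ℕ) (B : Finset (Finset (Fin n))) : Prop :=
  (∀ b ∈ B, b.card = q) ∧ ∀ s : Finset (Fin n), s.card = r → ∃! b, b ∈ B ∧ s ⊆ b

/-- The divisibility condition (D): for each `i < r` the number `C(n-i, r-i)` is a multiple of
`C(q-i, r-i)`. -/
def DivCond (n q r : ℕ) : Prop := ∀ i < r, (q - i).choose (r - i) ∣ (n - i).choose (r - i)

/-- **Main result.** For every `C` there are `r₀` and `k₀` such that for all `r ≥ r₀`, `q ≥ r + k₀`
and `n > q` for which (D) holds, or for which a Steiner system `S(n, q, r)` exists, one has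
`n > r + (q - r) ^ C`. -/
theorem result (C : ℕ) : ∃ r₀ k₀ : ℕ, ∀ n q r : ℕ, r₀ ≤ r → r + k₀ ≤ q → q < n →
    (DivCond n q r ∨ ∃ B, IsSteiner n q r B) → r + (q - r) ^ C < n := by
  obtain ⟨r₀, K₀, h⟩ := Pool.Agent.H108.St.main_arith (C + 1) (by omega)
  refine ⟨r₀, K₀ + 2, ?_⟩
  intro n q r hr hq hn hD
  by_contra hcon
  push Not at hcon
  have hD' : DivCond n q r := by
    rcases hD with hD | ⟨B, hB⟩
    · exact hD
    · exact Pool.Agent.R60.Steiner.divCond_of_isSteiner (by omega) (B := B) hB
  have h1 := Pool.Agent.H108.St.dv_of_divCond (n := n) (q := q) (r := r) (by omega) hn.le hD'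
  refine h (q - r + 1) (n - r + 1) (by omega) (by omega) ?_ (h1.mono hr)
  have h2 : n - r + 1 ≤ (q - r) ^ C + 1 := by omega
  have h3 : (q - r) ^ C + 1 ≤ (q - r + 1) ^ C + (q - r + 1) ^ C := by
    have h4 : (q - r) ^ C ≤ (q - r + 1) ^ C := Nat.pow_le_pow_left (by omega) C
    have h5 : 1 ≤ (q - r + 1) ^ C := Nat.one_le_pow _ _ (by omega)
    omega
  have h4 : (q - r + 1) ^ C + (q - r + 1) ^ C ≤ (q - r + 1) ^ (C + 1) := by
    rw [pow_succ]
    have : 2 ≤ q - r + 1 := by omega
    nlinarith [Nat.one_le_pow C (q - r + 1) (by omega)]
  omega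

end Pool.Agent.H108.Old.NoPolynomialOrder
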